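import Pool.Agent.helper5.IH.Spec

/-!
# Project ih (MP_45d809_mp), row GXC
-/

set_option autoImplicit false

namespace Pool.Agent.IH
open Finset CT SYM

theorem GXC_fin3 (a : Fin 3) (h : a ≠ 0) : a = 1 ∨ a = 2 := by
  revert a
  decide

/-- two different nonzero values give a contradiction -/
theorem GXC_aux (hMU2 : MU2_stmt) {V : Type} [Finite V] [DecidableEq V] (H : SimpleGraph V)
    (t t' : V → Fin 3) (x : V) (h : Function.update t x 0 = Function.update t' x 0)
    (h1 : t x = 1) (h2 : t' x = 2) (he : Even (mu H t)) (he' : Even (mu H t'))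
    (ho : Odd (mu H (Function.update t x 0))) : False := by
  have h3 : Function.update t x 1 = t := by
    rw [← h1]
    exact Function.update_eq_self x t
  have h4 : Function.update t x 2 = t' := by
    have h5 : Function.update (Function.update t x 0) x 2 = Function.update (Function.update t' x 0) x 2 := by
      rw [h]
    rw [Function.update_idem, Function.update_idem] at h5
    rw [h5, ← h2]
    exact Function.update_eq_self x t'
  have h6 := hMU2 V H t x
  rw [h3, h4] at h6
  have h7 : Odd (mu H t') := by
    rw [h6]
    exact ho.add_even he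
  exact (Nat.not_odd_iff_even.2 he') h7

/-- **GXC** -/
theorem GXC (hMU2 : MU2_stmt) : GXC_stmt := by
  intro V _ _ H S x
  by_cases hx : x ∈ S
  · rw [if_pos hx]
    haveI : IsEmpty {t : V → Fin 3 // (∀ w ∈ S, t w = 0) ∧ Even (mu H t) ∧ Gx H t x} :=
      ⟨fun t => t.2.2.2.1 (t.2.1 x hx)⟩
    exact Nat.card_of_isEmpty
  · rw [if_neg hx]
    unfold nS
    have hf : ∀ t : V → Fin 3, ((∀ w ∈ S, t w = 0) ∧ Even (mu H t) ∧ Gx H t x) →
        ((∀ w ∈ insert x S, Function.update t x 0 w = 0) ∧ Odd (mu H (Function.update t x 0))) := by
      rintro t ⟨h1, h2, h3, h4⟩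
      refine ⟨fun w hw => ?_, h4⟩
      by_cases hwx : w = x
      · rw [hwx, Function.update_self]
      · rw [Function.update_of_ne hwx]
        exact h1 w ((Finset.mem_insert.1 hw).resolve_left hwx)
    refine Nat.card_eq_of_bijective (fun t => ⟨Function.update t.1 x 0, hf t.1 t.2⟩) ⟨?_, ?_⟩
    · rintro ⟨t, ht1, ht2, ht3, ht4⟩ ⟨t', ht1', ht2', ht3', ht4'⟩ h
      have h' : Function.update t x 0 = Function.update t' x 0 := congrArg Subtype.val h
      have hoff : ∀ w, w ≠ x → t w = t' w := by
        intro w hw
        have := congrFun h' w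
        rw [Function.update_of_ne hw, Function.update_of_ne hw] at this
        exact this
      have hxx : t x = t' x := by
        rcases GXC_fin3 _ ht3 with h1 | h1 <;> rcases GXC_fin3 _ ht3' with h2 | h2
        · rw [h1, h2]
        · exact (GXC_aux hMU2 H t t' x h' h1 h2 ht2 ht2' ht4).elim
        · exact (GXC_aux hMU2 H t' t x h'.symm h2 h1 ht2' ht2 ht4').elim
        · rw [h1, h2]
      refine Subtype.ext (funext fun w => ?_)
      by_cases hw : w = x
      · rw [hw]
        exact hxx
      · exact hoff w hw
    · rintro ⟨s, hs1, hs2⟩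
      have hsx : s x = 0 := hs1 x (Finset.mem_insert_self x S)
      have hs0 : Function.update s x 0 = s := by
        rw [← hsx]
        exact Function.update_eq_self x s
      have hS : ∀ (k : Fin 3), ∀ w ∈ S, Function.update s x k w = 0 := by
        intro k w hw
        have hwx : w ≠ x := fun h => hx (h ▸ hw)
        rw [Function.update_of_ne hwx]
        exact hs1 w (Finset.mem_insert_of_mem hw)
      have hback : ∀ k : Fin 3, Function.update (Function.update s x k) x 0 = s := by
        intro k
        rw [Function.update_idem, hs0]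
      have key : ∀ k : Fin 3, k ≠ 0 → Even (mu H (Function.update s x k)) →
          ∃ a : {t : V → Fin 3 // (∀ w ∈ S, t w = 0) ∧ Even (mu H t) ∧ Gx H t x},
            (⟨Function.update a.1 x 0, hf a.1 a.2⟩ : {t : V → Fin 3 // (∀ v ∈ insert x S, t v = 0) ∧
              Odd (mu H t)}) = ⟨s, hs1, hs2⟩ := by
        intro k hk he
        refine ⟨⟨Function.update s x k, hS k, he, ?_, ?_⟩, Subtype.ext (hback k)⟩
        · rw [Function.update_self]
          exact hk
        · rw [hback k]
          exact hs2
      by_cases h1 : Even (mu H (Function.update s x 1))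
      · exact key 1 (by decide) h1
      · refine key 2 (by decide) ?_
        rw [hMU2 V H s x, hs0]
        exact hs2.add_odd (Nat.not_even_iff_odd.1 h1)

end Pool.Agent.IH
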